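import Pool.Agent.H.MP_3699be_gt.Main

namespace Pool.Agent.Results.MP_3699be_gt.No

open Pool.Agent.H.MP_3699be_gt

theorem result :
    ∃ (n : ℕ) (v : Fin n → ENNReal), 2 ≤ n ∧ (∀ i, 0 < v i) ∧ ∑ i, v i = 1 ∧
      ∃ (S' : Set ℂ) (E' : Fin n → Set ℂ), PolyPart S' E' ∧ (∀ i, area (E' i) = v i) ∧
        ∀ (S : Set ℂ) (E : Fin n → Set ℂ), PolyPart S E → (∀ i, area (E i) = v i) → Net120 S →
          len S' < len S :=
  ⟨41, fun i => area (E₀ i), by norm_num,
    fun i => (ENNReal.ofReal_pos.2 (mul_pos (by norm_num) (g_pos _))).trans_le (area_E₀ i),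
    total part, S₀, E₀, part, fun _ => rfl, fun _ _ hP ha h => final hP h ha⟩

end Pool.Agent.Results.MP_3699be_gt.No
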